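import Pool.Agent.U866.OM.Stm

/-!
# Project OM, package SUB
-/

set_option autoImplicit false

namespace Pool.Agent.U255.OM

open Pool.Agent.U866.OM Pool.Agent.H498R3.GB
open scoped Pointwise
open MeasureTheory Metric

theorem t_SUB : S_SUB := by
  intro m f ε R hε hR
  have h := Measure.setIntegral_comp_smul_of_pos (μ := (volume : Measure (E m))) f
    (ball (0 : E m) (ε * R)) (inv_pos.2 hε)
  rw [h]
  have h1 : (ε⁻¹ : ℝ) • ball (0 : E m) (ε * R) = ball (0 : E m) R := by
    rw [_root_.smul_ball (inv_ne_zero hε.ne'), smul_zero, Real.norm_eq_abs, abs_of_pos (inv_pos.2 hε)]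
    congr 1
    field_simp
  rw [h1, smul_eq_mul]
  congr 1
  have h2 : Module.finrank ℝ (E m) = m := finrank_euclideanSpace_fin
  rw [h2, inv_pow, inv_inv]

end Pool.Agent.U255.OM
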